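import Mathlib

/-! The first and the last Newton inequality hold for all weakly sign symmetric P-matrices. -/

set_option autoImplicit false

namespace Pool.Agent.Y744.GK
open Finset Matrix

lemma equiv_of {α β γ : Type*} (g : β → γ) (h : α → γ) (hg : Function.Injective g)
    (hh : Function.Injective h) (hr : Set.range h = Set.range g) : ∃ e : α ≃ β, h = g ∘ e := by
  refine ⟨(Equiv.ofInjective h hh).trans ((Equiv.setCongr hr).trans (Equiv.ofInjective g hg).symm),
    ?_⟩
  funext x
  simp only [Function.comp_apply, Equiv.trans_apply]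
  exact (Equiv.apply_ofInjective_symm hg (Equiv.setCongr hr (Equiv.ofInjective h hh x))).symm

/-- second elementary symmetric function -/
lemma esymm_two {ι : Type*} [DecidableEq ι] (s : Finset ι) (x : ι → ℝ) :
    2 * ∑ t ∈ powersetCard 2 s, ∏ i ∈ t, x i = (∑ i ∈ s, x i) ^ 2 - ∑ i ∈ s, x i ^ 2 := by
  induction s using Finset.induction_on with
  | empty =>
    rw [Finset.powersetCard_eq_empty.2 (by simp)]
    simp
  | insert a s ha ih =>
    rw [Finset.powersetCard_succ_insert ha, Finset.sum_union, Finset.sum_image]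
    · have h1 : ∑ t ∈ powersetCard 1 s, ∏ i ∈ insert a t, x i = x a * ∑ i ∈ s, x i := by
        rw [Finset.powersetCard_one, Finset.sum_map, Finset.mul_sum]
        refine Finset.sum_congr rfl (fun i hi => ?_)
        have hne : a ≠ i := fun h => ha (h ▸ hi)
        simp only [Function.Embedding.coeFn_mk]
        rw [Finset.prod_insert (by simpa using hne), Finset.prod_singleton]
      rw [h1, Finset.sum_insert ha, Finset.sum_insert ha, mul_add, ih]
      ring
    · intro t ht t' ht' h
      have h2 : a ∉ t := fun h3 => ha ((mem_powersetCard.1 ht).1 h3)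
      have h3 : a ∉ t' := fun h3 => ha ((mem_powersetCard.1 ht').1 h3)
      rw [← Finset.erase_insert h2, ← Finset.erase_insert h3]
      exact congrArg (fun u => Finset.erase u a) h
    · rw [Finset.disjoint_left]
      intro t ht ht'
      obtain ⟨u, hu, rfl⟩ := mem_image.1 ht'
      exact ha ((mem_powersetCard.1 ht).1 (mem_insert_self _ _))

/-- Newton's inequality of order one -/
lemma newton_one (n : ℕ) (hn : 2 ≤ n) (x : Fin n → ℝ) (e : ℝ)
    (he : e ≤ ∑ t ∈ powersetCard 2 (univ : Finset (Fin n)), ∏ i ∈ t, x i) :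
    e / (n.choose 2 : ℝ) ≤ ((∑ i, x i) / n) ^ 2 := by
  have h1 := esymm_two (univ : Finset (Fin n)) x
  have h2 : (∑ i, x i) ^ 2 ≤ n * ∑ i, x i ^ 2 := by
    have := sq_sum_le_card_mul_sum_sq (s := (univ : Finset (Fin n))) (f := x)
    simpa using this
  have hn0 : (2 : ℝ) ≤ n := by exact_mod_cast hn
  have hc : (n.choose 2 : ℝ) = n * (n - 1) / 2 := by
    rw [Nat.cast_choose_two]
  have hc0 : (0 : ℝ) < n.choose 2 := by
    rw [hc]
    have : (0 : ℝ) < n - 1 := by linarith
    positivity
  rw [div_le_iff₀ hc0, hc, div_pow]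
  have h3 : e ≤ ((∑ i, x i) ^ 2 - ∑ i, x i ^ 2) / 2 := by linarith
  refine h3.trans ?_
  have h4 : (∑ i, x i) ^ 2 / n ^ 2 * (n * ((n : ℝ) - 1) / 2) = (∑ i, x i) ^ 2 * ((n : ℝ) - 1) / (2 * n) := by
    field_simp
  rw [h4, div_le_div_iff₀ (by norm_num) (by linarith)]
  nlinarith

/-- the minor on a set of indices -/
noncomputable def mn {n : ℕ} (A : Matrix (Fin n) (Fin n) ℝ) (s : Finset (Fin n)) : ℝ :=
  (A.submatrix (fun i : s => (i : Fin n)) (fun i : s => (i : Fin n))).det

lemma mn_of {n : ℕ} (A : Matrix (Fin n) (Fin n) ℝ) {α : Type} [Fintype α] [DecidableEq α]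
    (h : α → Fin n) (hh : Function.Injective h) (s : Finset (Fin n)) (hs : Set.range h = s) :
    (A.submatrix h h).det = mn A s := by
  obtain ⟨e, he⟩ := equiv_of (fun i : s => (i : Fin n)) h Subtype.val_injective hh (by
    rw [hs]
    ext x
    simp)
  unfold mn
  rw [he, ← Matrix.det_submatrix_equiv_self e]
  rfl

lemma minor_mn {n k : ℕ} (A : Matrix (Fin n) (Fin n) ℝ) (f : Fin k ↪o Fin n) :
    (A.submatrix f f).det = mn A (univ.image f) :=
  mn_of A f f.injective _ (by simp)

lemma sum_compl {n r : ℕ} (hr : r ≤ n) (F : Finset (Fin n) → ℝ) :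
    ∑ s ∈ powersetCard (n - r) (univ : Finset (Fin n)), F s
      = ∑ t ∈ powersetCard r (univ : Finset (Fin n)), F tᶜ := by
  refine Finset.sum_bij' (fun s _ => sᶜ) (fun t _ => tᶜ) ?_ ?_ ?_ ?_ ?_
  · intro s hs
    rw [mem_powersetCard] at hs ⊢
    refine ⟨subset_univ _, ?_⟩
    rw [Finset.card_compl, hs.2, Fintype.card_fin]
    omega
  · intro s hs
    rw [mem_powersetCard] at hs ⊢
    refine ⟨subset_univ _, ?_⟩
    rw [Finset.card_compl, hs.2, Fintype.card_fin]
  · intro s _
    exact compl_compl s
  · intro s _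
    exact compl_compl s
  · intro s _
    rw [compl_compl]

/-- the Schur complement of one index -/
lemma schur_one {n p : ℕ} (A : Matrix (Fin n) (Fin n) ℝ) (f : Fin p → Fin n)
    (hf : (A.submatrix f f).det ≠ 0) (u v : Fin n) :
    (A.submatrix (Sum.elim f (fun _ : Fin 1 => u)) (Sum.elim f (fun _ : Fin 1 => v))).det
      = (A.submatrix f f).det *
        (A u v - ((A.submatrix (fun _ : Fin 1 => u) f) * (A.submatrix f f)⁻¹ *
          (A.submatrix f (fun _ : Fin 1 => v))) 0 0) := by
  have : Invertible (A.submatrix f f) := Matrix.invertibleOfIsUnitDet _ (isUnit_iff_ne_zero.2 hf)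
  have h1 : A.submatrix (Sum.elim f (fun _ : Fin 1 => u)) (Sum.elim f (fun _ : Fin 1 => v))
      = fromBlocks (A.submatrix f f) (A.submatrix f (fun _ : Fin 1 => v))
        (A.submatrix (fun _ : Fin 1 => u) f) (A.submatrix (fun _ : Fin 1 => u) (fun _ : Fin 1 => v)) := by
    ext i j
    rcases i with i | i <;> rcases j with j | j <;> rfl
  rw [h1, Matrix.det_fromBlocks₁₁, Matrix.det_fin_one, Matrix.sub_apply, Matrix.invOf_eq_nonsing_inv]
  rfl

lemma schur_two {n p : ℕ} (A : Matrix (Fin n) (Fin n) ℝ) (f : Fin p → Fin n)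
    (hf : (A.submatrix f f).det ≠ 0) (v : Fin 2 → Fin n) :
    (A.submatrix (Sum.elim f v) (Sum.elim f v)).det * (A.submatrix f f).det
      = (A.submatrix (Sum.elim f (fun _ : Fin 1 => v 0)) (Sum.elim f (fun _ : Fin 1 => v 0))).det *
        (A.submatrix (Sum.elim f (fun _ : Fin 1 => v 1)) (Sum.elim f (fun _ : Fin 1 => v 1))).det -
        (A.submatrix (Sum.elim f (fun _ : Fin 1 => v 0)) (Sum.elim f (fun _ : Fin 1 => v 1))).det *
        (A.submatrix (Sum.elim f (fun _ : Fin 1 => v 1)) (Sum.elim f (fun _ : Fin 1 => v 0))).det := by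
  have : Invertible (A.submatrix f f) := Matrix.invertibleOfIsUnitDet _ (isUnit_iff_ne_zero.2 hf)
  have h1 : A.submatrix (Sum.elim f v) (Sum.elim f v)
      = fromBlocks (A.submatrix f f) (A.submatrix f v) (A.submatrix v f) (A.submatrix v v) := by
    ext i j
    rcases i with i | i <;> rcases j with j | j <;> rfl
  have h2 : ∀ i j : Fin 2, (A.submatrix v v - A.submatrix v f * (A.submatrix f f)⁻¹ * A.submatrix f v) i j
      = A (v i) (v j) - ((A.submatrix (fun _ : Fin 1 => v i) f) * (A.submatrix f f)⁻¹ *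
          (A.submatrix f (fun _ : Fin 1 => v j))) 0 0 := by
    intro i j
    rfl
  rw [schur_one A f hf, schur_one A f hf, schur_one A f hf, schur_one A f hf, h1,
    Matrix.det_fromBlocks₁₁, Matrix.invOf_eq_nonsing_inv, Matrix.det_fin_two, h2, h2, h2, h2]
  ring

/-- simultaneous reordering does not change the product of two opposite minors -/
lemma swap_sign {n : ℕ} {α β : Type} [Fintype α] [DecidableEq α] [Fintype β] [DecidableEq β]
    (A : Matrix (Fin n) (Fin n) ℝ) (g₁ g₂ : β → Fin n) (e₁ e₂ : α ≃ β) :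
    (A.submatrix (g₁ ∘ e₁) (g₂ ∘ e₂)).det * (A.submatrix (g₂ ∘ e₂) (g₁ ∘ e₁)).det
      = (A.submatrix g₁ g₂).det * (A.submatrix g₂ g₁).det := by
  set σ : Equiv.Perm α := e₂.trans e₁.symm with hσ
  have hσe : ∀ x, e₁ (σ x) = e₂ x := by
    intro x
    simp [hσ]
  have h1 : (A.submatrix (g₁ ∘ e₁) (g₂ ∘ e₂)).det
      = (Equiv.Perm.sign σ : ℤ) * (A.submatrix g₁ g₂).det := by
    rw [← Matrix.det_submatrix_equiv_self e₁ (A.submatrix g₁ g₂), ← Matrix.det_permute']
    congr 1
    ext x y
    simp [hσe]
  have h2 : (A.submatrix (g₂ ∘ e₂) (g₁ ∘ e₁)).det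
      = (Equiv.Perm.sign σ : ℤ) * (A.submatrix g₂ g₁).det := by
    rw [← Matrix.det_submatrix_equiv_self e₁ (A.submatrix g₂ g₁), ← Matrix.det_permute]
    congr 1
    ext x y
    simp [hσe]
  have hs : ((Equiv.Perm.sign σ : ℤ) : ℝ) * ((Equiv.Perm.sign σ : ℤ) : ℝ) = 1 := by
    rcases Int.units_eq_one_or (Equiv.Perm.sign σ) with h | h <;> rw [h] <;> norm_num
  rw [h1, h2]
  linear_combination ((A.submatrix g₁ g₂).det * (A.submatrix g₂ g₁).det) * hs

lemma key {n : ℕ} (A : Matrix (Fin n) (Fin n) ℝ) (hP : ∀ s, 0 < mn A s)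
    (hW : ∀ (k : ℕ) (f g : Fin k ↪o Fin n), (univ.image f ∩ univ.image g).card + 1 = k →
      0 ≤ (A.submatrix f g).det * (A.submatrix g f).det) (i j : Fin n) (hij : i ≠ j) :
    mn A univ * mn A {i, j}ᶜ ≤ mn A {i}ᶜ * mn A {j}ᶜ := by
  set s : Finset (Fin n) := {i, j}ᶜ with hs
  have his : i ∉ s := by simp [hs]
  have hjs : j ∉ s := by simp [hs]
  set f := s.orderEmbOfFin rfl with hf
  have hfr : Set.range f = s := Finset.range_orderEmbOfFin s rfl
  have hfs : ∀ x, f x ∈ s := fun x => Finset.orderEmbOfFin_mem s rfl x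
  have hsi : insert i s = {j}ᶜ := by
    ext x
    simp only [hs, mem_insert, mem_compl, mem_singleton]
    constructor
    · rintro (h | h)
      · rw [h]; exact hij
      · tauto
    · intro h
      by_cases hx : x = i
      · exact Or.inl hx
      · exact Or.inr (by tauto)
  have hsj : insert j s = {i}ᶜ := by
    ext x
    simp only [hs, mem_insert, mem_compl, mem_singleton]
    constructor
    · rintro (h | h)
      · rw [h]; exact hij.symm
      · tauto
    · intro h
      by_cases hx : x = j
      · exact Or.inl hx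
      · exact Or.inr (by tauto)
  have inj1 : ∀ u, u ∉ s → Function.Injective (Sum.elim f (fun _ : Fin 1 => u)) := by
    intro u hu x y hxy
    rcases x with x | x <;> rcases y with y | y
    · simp only [Sum.elim_inl] at hxy
      rw [f.injective hxy]
    · simp only [Sum.elim_inl, Sum.elim_inr] at hxy
      exact absurd (hxy ▸ hfs x) hu
    · simp only [Sum.elim_inl, Sum.elim_inr] at hxy
      exact absurd (hxy ▸ hfs y) hu
    · rw [Subsingleton.elim x y]
  have ran1 : ∀ u, Set.range (Sum.elim f (fun _ : Fin 1 => u)) = ((insert u s : Finset (Fin n)) : Set (Fin n)) := by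
    intro u
    rw [Set.Sum.elim_range, hfr, Set.range_const, coe_insert]
    ext x
    simp
  have inj2 : Function.Injective (Sum.elim f ![i, j]) := by
    intro x y hxy
    rcases x with x | x <;> rcases y with y | y
    · simp only [Sum.elim_inl] at hxy
      rw [f.injective hxy]
    · exfalso
      simp only [Sum.elim_inl, Sum.elim_inr] at hxy
      have hx := hfs x
      rw [hxy] at hx
      fin_cases y
      · exact his hx
      · exact hjs hx
    · exfalso
      simp only [Sum.elim_inl, Sum.elim_inr] at hxy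
      have hy := hfs y
      rw [← hxy] at hy
      fin_cases x
      · exact his hy
      · exact hjs hy
    · simp only [Sum.elim_inr] at hxy
      fin_cases x <;> fin_cases y
      · rfl
      · exact absurd hxy hij
      · exact absurd hxy hij.symm
      · rfl
  have ran2 : Set.range (Sum.elim f ![i, j]) = ((univ : Finset (Fin n)) : Set (Fin n)) := by
    rw [Set.Sum.elim_range, hfr]
    ext x
    simp only [Set.mem_union, mem_coe, hs, mem_compl, mem_insert, mem_singleton, Set.mem_range,
      mem_univ, iff_true]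
    by_cases h : x = i ∨ x = j
    · right
      rcases h with h | h
      · exact ⟨0, h.symm⟩
      · exact ⟨1, h.symm⟩
    · exact Or.inl h
  have e0 : (A.submatrix f f).det = mn A s := mn_of A f f.injective s hfr
  have e1 : (A.submatrix (Sum.elim f (fun _ : Fin 1 => i)) (Sum.elim f (fun _ : Fin 1 => i))).det
      = mn A {j}ᶜ := by
    rw [mn_of A _ (inj1 i his) _ (ran1 i), hsi]
  have e2 : (A.submatrix (Sum.elim f (fun _ : Fin 1 => j)) (Sum.elim f (fun _ : Fin 1 => j))).det
      = mn A {i}ᶜ := by
    rw [mn_of A _ (inj1 j hjs) _ (ran1 j), hsj]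
  have e3 : (A.submatrix (Sum.elim f ![i, j]) (Sum.elim f ![i, j])).det = mn A univ := by
    rw [mn_of A _ inj2 _ ran2]
  have hne : (A.submatrix f f).det ≠ 0 := by rw [e0]; exact (hP s).ne'
  have h2 := schur_two A f hne ![i, j]
  simp only [Matrix.cons_val_zero, Matrix.cons_val_one] at h2
  rw [e3, e0, e1, e2] at h2
  -- the mixed product
  have hci : (insert i s).card = s.card + 1 := card_insert_of_notMem his
  have hcj : (insert j s).card = s.card + 1 := card_insert_of_notMem hjs
  have hmix : 0 ≤ (A.submatrix (Sum.elim f (fun _ : Fin 1 => i)) (Sum.elim f (fun _ : Fin 1 => j))).det *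
      (A.submatrix (Sum.elim f (fun _ : Fin 1 => j)) (Sum.elim f (fun _ : Fin 1 => i))).det := by
    obtain ⟨e₁, he₁⟩ := equiv_of ((insert i s).orderEmbOfFin hci) (Sum.elim f (fun _ : Fin 1 => i))
      (RelEmbedding.injective _) (inj1 i his) (by rw [ran1 i, Finset.range_orderEmbOfFin])
    obtain ⟨e₂, he₂⟩ := equiv_of ((insert j s).orderEmbOfFin hcj) (Sum.elim f (fun _ : Fin 1 => j))
      (RelEmbedding.injective _) (inj1 j hjs) (by rw [ran1 j, Finset.range_orderEmbOfFin])
    rw [he₁, he₂, swap_sign]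
    apply hW
    have i1 : univ.image ((insert i s).orderEmbOfFin hci) = insert i s := by
      apply Finset.coe_injective
      rw [coe_image, coe_univ, Set.image_univ, Finset.range_orderEmbOfFin]
    have i2 : univ.image ((insert j s).orderEmbOfFin hcj) = insert j s := by
      apply Finset.coe_injective
      rw [coe_image, coe_univ, Set.image_univ, Finset.range_orderEmbOfFin]
    rw [i1, i2]
    have i3 : insert i s ∩ insert j s = s := by
      ext x
      simp only [mem_inter, mem_insert]
      constructor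
      · rintro ⟨h | h, h' | h'⟩
        · exact absurd (h.symm.trans h') hij
        · exact h'
        · exact h
        · exact h
      · intro h
        exact ⟨Or.inr h, Or.inr h⟩
    rw [i3]
  rw [h2]
  nlinarith [hmix]

end Pool.Agent.Y744.GK
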