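import Pool.Agent.Y744.GK.Wss

/-! Weak sign symmetry of the bordered matrices and the sums of their principal minors. -/

set_option autoImplicit false

namespace Pool.Agent.Y744.GK
open Finset Matrix

lemma perm_of {m n : ℕ} (g h : Fin m → Fin n)
    (hh : Function.Injective h) (hr : univ.image h = univ.image g) :
    ∃ σ : Equiv.Perm (Fin m), h = g ∘ σ := by
  classical
  have h1 : ∀ i, ∃ j, g j = h i := by
    intro i
    have : h i ∈ univ.image g := by
      rw [← hr]
      exact mem_image_of_mem _ (mem_univ i)
    obtain ⟨j, -, hj⟩ := mem_image.1 this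
    exact ⟨j, hj⟩
  choose s hs using h1
  have hinj : Function.Injective s := by
    intro i j hij
    apply hh
    rw [← hs i, ← hs j, hij]
  refine ⟨Equiv.ofBijective s (Finite.injective_iff_bijective.1 hinj), ?_⟩
  funext i
  simp [hs]

lemma wss_mixed {k m : ℕ} (a c : ℝ) (ha : 1 < a) (hc : 0 < c) (f g : Fin m ↪o Fin (k + 1))
    (hf : Fin.last k ∈ Set.range f) (hg : Fin.last k ∉ Set.range g)
    (h : (univ.image f ∩ univ.image g).card + 1 = m) :
    0 ≤ ((G k a c).submatrix f g).det * ((G k a c).submatrix g f).det := by
  classical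
  obtain ⟨m', rfl⟩ : ∃ m', m = m' + 1 := ⟨m - 1, by omega⟩
  have hl := last_eq f hf
  set f' : Fin m' → Fin (k + 1) := fun s => f s.castSucc with hf'
  have hmono : StrictMono f' := fun s t hst => f.strictMono (Fin.castSucc_lt_castSucc_iff.2 hst)
  have hfl : ∀ s, f' s ≠ Fin.last k := by
    intro s hs
    have : f s.castSucc = f (Fin.last m') := by rw [hl]; exact hs
    exact (Fin.castSucc_lt_last s).ne (f.injective this)
  have hfs : (f : Fin (m' + 1) → Fin (k + 1)) = Fin.snoc (α := fun _ => Fin (k + 1)) f' (Fin.last k) := by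
    funext i
    induction i using Fin.lastCases with
    | last => rw [Fin.snoc_last, hl]
    | cast s => rw [Fin.snoc_castSucc]
  have hsub : univ.image f ∩ univ.image g ⊆ univ.image f' := by
    intro x hx
    rw [mem_inter] at hx
    obtain ⟨hx1, hx2⟩ := hx
    obtain ⟨i, -, hi⟩ := mem_image.1 hx1
    induction i using Fin.lastCases with
    | last =>
      exfalso
      rw [hl] at hi
      obtain ⟨j, -, hj⟩ := mem_image.1 hx2
      exact hg ⟨j, by rw [hj, hi]⟩
    | cast s => exact mem_image.2 ⟨s, mem_univ _, hi⟩
  have hcard : (univ.image f').card = m' := by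
    rw [Finset.card_image_of_injective _ hmono.injective]
    simp
  have heq : univ.image f ∩ univ.image g = univ.image f' :=
    Finset.eq_of_subset_of_card_le hsub (by omega)
  have hsub2 : univ.image f' ⊆ univ.image g := by
    rw [← heq]
    exact inter_subset_right
  have hcg : (univ.image g).card = m' + 1 := by
    rw [Finset.card_image_of_injective _ g.injective]
    simp
  obtain ⟨j, hj⟩ : ∃ j, j ∈ univ.image g \ univ.image f' := by
    have : 0 < (univ.image g \ univ.image f').card := by
      rw [Finset.card_sdiff_of_subset hsub2]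
      omega
    exact Finset.card_pos.1 this
  rw [mem_sdiff] at hj
  obtain ⟨hj1, hj2⟩ := hj
  have hjl : j ≠ Fin.last k := by
    rintro rfl
    obtain ⟨i, -, hi⟩ := mem_image.1 hj1
    exact hg ⟨i, hi⟩
  have hj3 : ∀ s, f' s ≠ j := fun s hs => hj2 (mem_image.2 ⟨s, mem_univ _, hs⟩)
  set w : Fin (m' + 1) → Fin (k + 1) := Fin.snoc (α := fun _ => Fin (k + 1)) f' j with hw
  have hwc : ∀ s, w (Fin.castSucc s) = f' s := by intro s; rw [hw, Fin.snoc_castSucc]
  have hwl : w (Fin.last m') = j := by rw [hw, Fin.snoc_last]
  have hwinj : Function.Injective w := by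
    intro x y hxy
    induction x using Fin.lastCases with
    | last =>
      induction y using Fin.lastCases with
      | last => rfl
      | cast t =>
        rw [hwl, hwc] at hxy
        exact absurd hxy.symm (hj3 t)
    | cast s =>
      induction y using Fin.lastCases with
      | last =>
        rw [hwl, hwc] at hxy
        exact absurd hxy (hj3 s)
      | cast t =>
        rw [hwc, hwc] at hxy
        rw [hmono.injective hxy]
  have hr : univ.image w = univ.image g := by
    apply Finset.eq_of_subset_of_card_le
    · intro x hx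
      obtain ⟨i, -, hi⟩ := mem_image.1 hx
      induction i using Fin.lastCases with
      | last =>
        rw [hwl] at hi
        rw [← hi]
        exact hj1
      | cast s =>
        rw [hwc] at hi
        exact hsub2 (mem_image.2 ⟨s, mem_univ _, hi⟩)
    · rw [Finset.card_image_of_injective _ hwinj, hcg]
      simp
  obtain ⟨σ, hσ⟩ := perm_of g w hwinj hr
  have e1 : ((G k a c).submatrix f w).det = (Equiv.Perm.sign σ : ℤ) * ((G k a c).submatrix f g).det := by
    rw [hσ, ← Matrix.det_permute']
    rfl
  have e2 : ((G k a c).submatrix w f).det = (Equiv.Perm.sign σ : ℤ) * ((G k a c).submatrix g f).det := by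
    rw [hσ, ← Matrix.det_permute]
    rfl
  have p1 : 0 ≤ ((G k a c).submatrix f w).det := by
    rw [hfs]
    exact mixed_one a c ha hc f' hmono hfl j hj3
  have p2 : 0 ≤ ((G k a c).submatrix w f).det := by
    rw [hfs]
    exact mixed_two a c ha f' hmono hfl j hjl hj3
  have hs : ((Equiv.Perm.sign σ : ℤ) : ℝ) * ((Equiv.Perm.sign σ : ℤ) : ℝ) = 1 := by
    rcases Int.units_eq_one_or (Equiv.Perm.sign σ) with h | h <;> rw [h] <;> norm_num
  have h3 := mul_nonneg p1 p2
  rw [e1, e2] at h3
  calc (0 : ℝ) ≤ _ := h3
    _ = (((Equiv.Perm.sign σ : ℤ) : ℝ) * ((Equiv.Perm.sign σ : ℤ) : ℝ)) *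
      (((G k a c).submatrix f g).det * ((G k a c).submatrix g f).det) := by ring
    _ = _ := by rw [hs, one_mul]

/-- weak sign symmetry -/
lemma wss {k m : ℕ} (a c : ℝ) (ha : 1 < a) (hc : 0 < c) (f g : Fin m ↪o Fin (k + 1))
    (h : (univ.image f ∩ univ.image g).card + 1 = m) :
    0 ≤ ((G k a c).submatrix f g).det * ((G k a c).submatrix g f).det := by
  classical
  by_cases hf : Fin.last k ∈ Set.range f
  · by_cases hg : Fin.last k ∈ Set.range g
    · have hne : ∃ t, f t ≠ g t := by
        by_contra hcon
        push Not at hcon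
        have e : (f : Fin m → Fin (k + 1)) = g := funext hcon
        rw [e, inter_self, Finset.card_image_of_injective _ g.injective] at h
        simp at h
      obtain ⟨t, ht⟩ := hne
      obtain ⟨m', rfl⟩ : ∃ m', m = m' + 1 := ⟨m - 1, by omega⟩
      rcases lt_or_gt_of_ne ht with h1 | h1
      · rw [up_zero a c hc.ne' f g hf t h1, zero_mul]
      · rw [up_zero a c hc.ne' g f hg t h1, mul_zero]
    · exact wss_mixed a c ha hc f g hf hg h
  · by_cases hg : Fin.last k ∈ Set.range g
    · rw [mul_comm]
      exact wss_mixed a c ha hc g f hg hf (by rw [inter_comm]; exact h)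
    · have hne : ∃ t, f t ≠ g t := by
        by_contra hcon
        push Not at hcon
        have e : (f : Fin m → Fin (k + 1)) = g := funext hcon
        rw [e, inter_self, Finset.card_image_of_injective _ g.injective] at h
        simp at h
      obtain ⟨t, ht⟩ := hne
      rcases lt_or_gt_of_ne ht with h1 | h1
      · rw [low_zero a c g f hg t h1, mul_zero]
      · rw [low_zero a c f g hf t h1, zero_mul]

/-- positive principal minors -/
lemma pmat {k m : ℕ} (a c : ℝ) (ha : 1 < a) (hc : 0 < c) (f : Fin m ↪o Fin (k + 1)) :
    0 < ((G k a c).submatrix f f).det := by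
  by_cases hf : Fin.last k ∈ Set.range f
  · rw [minor_in a c hc.ne' f hf]
    exact hc
  · rw [minor_out a c f hf]
    positivity

/-- sums over increasing sequences are sums over subsets -/
lemma sum_emb {n j : ℕ} (F : Finset (Fin n) → ℝ) :
    ∑ f : Fin j ↪o Fin n, F (univ.image f) = ∑ s ∈ powersetCard j (univ : Finset (Fin n)), F s := by
  classical
  refine Finset.sum_bij' (fun f _ => univ.image f)
    (fun s hs => s.orderEmbOfFin (mem_powersetCard.1 hs).2) ?_ ?_ ?_ ?_ ?_
  · intro f _
    rw [mem_powersetCard]
    refine ⟨subset_univ _, ?_⟩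
    rw [Finset.card_image_of_injective _ f.injective]
    simp
  · intro s hs
    exact mem_univ _
  · intro f _
    have hcard : (univ.image f).card = j := by
      rw [Finset.card_image_of_injective _ f.injective]
      simp
    have := Finset.orderEmbOfFin_unique' hcard (f := f) (fun x => mem_image_of_mem _ (mem_univ x))
    exact this.symm
  · intro s hs
    ext x
    have := Finset.range_orderEmbOfFin s (mem_powersetCard.1 hs).2
    rw [mem_image]
    constructor
    · rintro ⟨i, -, rfl⟩
      exact Finset.orderEmbOfFin_mem s _ i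
    · intro hx
      have hx' : x ∈ Set.range (s.orderEmbOfFin (mem_powersetCard.1 hs).2) := by
        rw [this]
        exact hx
      obtain ⟨i, hi⟩ := hx'
      exact ⟨i, mem_univ _, hi⟩
  · intro f _
    rfl

/-- the sum of the principal minors of order `j` -/
lemma sum_minors (k j : ℕ) (a c : ℝ) (hc : c ≠ 0) :
    ∑ f : Fin j ↪o Fin (k + 1), ((G k a c).submatrix f f).det
      = (k.choose j : ℝ) * a ^ j + (((k + 1).choose j : ℝ) - k.choose j) * c := by
  classical
  have h1 : ∀ f : Fin j ↪o Fin (k + 1), ((G k a c).submatrix f f).det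
      = (fun s : Finset (Fin (k + 1)) => if Fin.last k ∈ s then c else a ^ j) (univ.image f) := by
    intro f
    by_cases hf : Fin.last k ∈ Set.range f
    · have h2 : Fin.last k ∈ univ.image f := by
        obtain ⟨i, hi⟩ := hf
        exact mem_image.2 ⟨i, mem_univ _, hi⟩
      rw [minor_in a c hc f hf]
      simp only [if_pos h2]
    · have h2 : Fin.last k ∉ univ.image f := by
        intro h3
        obtain ⟨i, -, hi⟩ := mem_image.1 h3
        exact hf ⟨i, hi⟩
      rw [minor_out a c f hf]
      simp only [if_neg h2]
  rw [Finset.sum_congr rfl (fun f _ => h1 f),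
    sum_emb (fun s : Finset (Fin (k + 1)) => if Fin.last k ∈ s then c else a ^ j),
    Finset.sum_ite, Finset.sum_const, Finset.sum_const, nsmul_eq_mul, nsmul_eq_mul]
  have h4 : ((powersetCard j (univ : Finset (Fin (k + 1)))).filter (fun s => ¬ Fin.last k ∈ s)).card
      = k.choose j := by
    have : (powersetCard j (univ : Finset (Fin (k + 1)))).filter (fun s => ¬ Fin.last k ∈ s)
        = powersetCard j ((univ : Finset (Fin (k + 1))).erase (Fin.last k)) := by
      ext s
      simp only [mem_filter, mem_powersetCard, subset_univ, true_and, Finset.subset_erase]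
      tauto
    rw [this, card_powersetCard, card_erase_of_mem (mem_univ _)]
    simp
  have h5 : ((powersetCard j (univ : Finset (Fin (k + 1)))).filter (fun s => Fin.last k ∈ s)).card
      + ((powersetCard j (univ : Finset (Fin (k + 1)))).filter (fun s => ¬ Fin.last k ∈ s)).card
      = (k + 1).choose j := by
    rw [Finset.card_filter_add_card_filter_not, card_powersetCard]
    simp
  have h6 : (((powersetCard j (univ : Finset (Fin (k + 1)))).filter (fun s => Fin.last k ∈ s)).card : ℝ)
      = ((k + 1).choose j : ℝ) - k.choose j := by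
    have h7 : ((((powersetCard j (univ : Finset (Fin (k + 1)))).filter
      (fun s => Fin.last k ∈ s)).card + ((powersetCard j (univ : Finset (Fin (k + 1)))).filter
        (fun s => ¬ Fin.last k ∈ s)).card : ℕ) : ℝ) = ((k + 1).choose j : ℝ) := by
      rw [h5]
    rw [Nat.cast_add, h4] at h7
    linarith
  rw [h6, h4]
  ring

end Pool.Agent.Y744.GK
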