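import Pool.Agent.Y744.GK.Gkk

/-! Real eigenvalues of the principal submatrices of the bordered matrices. -/

set_option autoImplicit false

namespace Pool.Agent.Y744.GK
open Finset Matrix

lemma mem_spec {k : ℕ} (M : Matrix (Fin k) (Fin k) ℝ) (x : ℝ) :
    x ∈ spectrum ℝ M ↔ (x • (1 : Matrix (Fin k) (Fin k) ℝ) - M).det = 0 := by
  rw [spectrum.mem_iff, Algebra.algebraMap_eq_smul_one, Matrix.isUnit_iff_isUnit_det,
    isUnit_iff_ne_zero, not_not]

/-- The characteristic function up to sign. -/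
def gg (a c : ℝ) (k : ℕ) (x : ℝ) : ℝ := x * (a - x) ^ k - c * (1 - x) ^ k

lemma q_iff (a c : ℝ) (k : ℕ) (x : ℝ) : x * (x - a) ^ k - c * (x - 1) ^ k = 0 ↔ gg a c k x = 0 := by
  have h : x * (x - a) ^ k - c * (x - 1) ^ k = (-1) ^ k * gg a c k x := by
    have h1 : (x - a) ^ k = (-1) ^ k * (a - x) ^ k := by rw [← mul_pow]; congr 1; ring
    have h2 : (x - 1) ^ k = (-1) ^ k * (1 - x) ^ k := by rw [← mul_pow]; congr 1; ring
    rw [gg, h1, h2]; ring
  rw [h, mul_eq_zero, or_iff_right]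
  exact pow_ne_zero _ (by norm_num)

lemma gg_cont (a c : ℝ) (k : ℕ) : Continuous (gg a c k) := by
  unfold gg; fun_prop

lemma gg_zero (a c : ℝ) (hc : 0 < c) (k : ℕ) : gg a c k 0 < 0 := by
  unfold gg; simp [hc]

lemma root_pos (a c : ℝ) (ha : 1 < a) (hc : 0 < c) (k : ℕ) (x : ℝ) (h : gg a c k x = 0) : 0 < x := by
  by_contra hx
  push Not at hx
  have h1 : x * (a - x) ^ k ≤ 0 := mul_nonpos_of_nonpos_of_nonneg hx (by
    apply pow_nonneg; linarith)
  have h2 : 0 < c * (1 - x) ^ k := mul_pos hc (by apply pow_pos; linarith)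
  unfold gg at h
  linarith

lemma exists_root_lt (a c : ℝ) (hc : 0 < c) (k : ℕ) (b : ℝ) (hb : 0 < b) (h : 0 < gg a c k b) :
    ∃ y, y ≤ b ∧ gg a c k y = 0 := by
  have h0 := gg_zero a c hc k
  obtain ⟨y, hy, hy2⟩ := intermediate_value_Icc hb.le (gg_cont a c k).continuousOn
    (show (0 : ℝ) ∈ Set.Icc (gg a c k 0) (gg a c k b) from ⟨h0.le, h.le⟩)
  exact ⟨y, hy.2, hy2⟩

lemma exists_root_one (a c : ℝ) (ha : 1 < a) (hc : 0 < c) (k : ℕ) (hk1 : 1 ≤ k) :
    ∃ y, y ≤ 1 ∧ gg a c k y = 0 := by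
  apply exists_root_lt a c hc k 1 one_pos
  unfold gg
  rw [sub_self, zero_pow (by omega)]
  have : (0 : ℝ) < (a - 1) ^ k := pow_pos (by linarith) _
  linarith

lemma mono_root (a c : ℝ) (ha : 1 < a) (hc : 0 < c) (j k : ℕ) (hjk : j ≤ k) (x : ℝ)
    (hx : gg a c j x = 0) : ∃ y, y ≤ x ∧ gg a c k y = 0 := by
  rcases hjk.eq_or_lt with rfl | hlt
  · exact ⟨x, le_rfl, hx⟩
  by_cases h1 : 1 ≤ x
  · obtain ⟨y, hy, hy2⟩ := exists_root_one a c ha hc k (by omega)
    exact ⟨y, hy.trans h1, hy2⟩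
  · push Not at h1
    have hpos := root_pos a c ha hc j x hx
    apply exists_root_lt a c hc k x hpos
    obtain ⟨d, rfl⟩ := Nat.exists_eq_add_of_le hlt.le
    have hd : d ≠ 0 := by omega
    have e : gg a c (j + d) x = c * (1 - x) ^ j * ((a - x) ^ d - (1 - x) ^ d) := by
      unfold gg at hx ⊢
      rw [pow_add, pow_add]
      linear_combination (a - x) ^ d * hx
    rw [e]
    have a1 : 0 < (1 - x) ^ j := by apply pow_pos; linarith
    have a2 : (1 - x) ^ d < (a - x) ^ d := by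
      apply pow_lt_pow_left₀ _ _ hd <;> linarith
    have a3 : 0 < (a - x) ^ d - (1 - x) ^ d := by linarith
    positivity

lemma spec_G (a c : ℝ) (hc : 0 < c) (k : ℕ) (x : ℝ) :
    x ∈ spectrum ℝ (G k a c) ↔ gg a c k x = 0 := by
  rw [mem_spec, char_G _ _ _ _ hc.ne', q_iff]

lemma spec_U (a : ℝ) (k : ℕ) (hk : 0 < k) (x : ℝ) : x ∈ spectrum ℝ (U k a) ↔ x = a := by
  rw [mem_spec, char_U, pow_eq_zero_iff hk.ne', sub_eq_zero]

/-- principal submatrices have real eigenvalues -/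
lemma spec_nonempty {k m : ℕ} (a c : ℝ) (ha : 1 < a) (hc : 0 < c) (g : Fin m ↪o Fin (k + 1))
    (hm : 0 < m) : ∃ y, y ∈ spectrum ℝ ((G k a c).submatrix g g) := by
  by_cases h3 : Fin.last k ∈ Set.range g
  · obtain ⟨m', rfl⟩ : ∃ m', m = m' + 1 := ⟨m - 1, by omega⟩
    rw [sub_G a c g h3]
    rcases Nat.eq_zero_or_pos m' with rfl | hpos
    · exact ⟨c, by rw [spec_G a c hc 0]; simp [gg]⟩
    · obtain ⟨y, -, hy⟩ := exists_root_one a c ha hc m' hpos
      exact ⟨y, by rw [spec_G a c hc m']; exact hy⟩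
  · rw [sub_U a c g h3]
    exact ⟨a, by rw [spec_U a m hm]⟩

/-- monotonicity of the least real eigenvalue -/
lemma spec_mono {k p m : ℕ} (a c : ℝ) (ha : 1 < a) (hc : 0 < c) (f : Fin p ↪o Fin (k + 1))
    (g : Fin m ↪o Fin (k + 1)) (hm : 0 < m) (hsub : Set.range g ⊆ Set.range f) (x : ℝ)
    (hx : x ∈ spectrum ℝ ((G k a c).submatrix g g)) :
    ∃ y ∈ spectrum ℝ ((G k a c).submatrix f f), y ≤ x := by
  have hmk : m ≤ p := by
    have h1 : (Set.range g).ncard ≤ (Set.range f).ncard := Set.ncard_le_ncard hsub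
    rw [← Set.image_univ, ← Set.image_univ, Set.ncard_image_of_injective _ g.injective,
      Set.ncard_image_of_injective _ f.injective] at h1
    simpa using h1
  by_cases h3 : Fin.last k ∈ Set.range f
  · obtain ⟨k', rfl⟩ : ∃ k', p = k' + 1 := ⟨p - 1, by omega⟩
    rw [sub_G a c f h3]
    by_cases h3g : Fin.last k ∈ Set.range g
    · obtain ⟨m', rfl⟩ : ∃ m', m = m' + 1 := ⟨m - 1, by omega⟩
      rw [sub_G a c g h3g, spec_G a c hc m'] at hx
      obtain ⟨y, hy1, hy2⟩ := mono_root a c ha hc m' k' (by omega) x hx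
      exact ⟨y, by rw [spec_G a c hc k']; exact hy2, hy1⟩
    · rw [sub_U a c g h3g, spec_U a m hm] at hx
      subst hx
      have hk' : 1 ≤ k' := by
        by_contra h0
        have h00 : k' = 0 := by omega
        subst h00
        obtain ⟨i, hi⟩ := hsub ⟨⟨0, hm⟩, rfl⟩
        obtain ⟨j, hj⟩ := h3
        have hij : i = j := Fin.ext (by omega)
        exact h3g ⟨⟨0, hm⟩, by rw [← hi, hij, hj]⟩
      obtain ⟨y, hy1, hy2⟩ := exists_root_one x c ha hc k' hk'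
      exact ⟨y, by rw [spec_G x c hc k']; exact hy2, by linarith⟩
  · have h3g : Fin.last k ∉ Set.range g := fun h => h3 (hsub h)
    rw [sub_U a c g h3g, spec_U a m hm] at hx
    rw [sub_U a c f h3]
    exact ⟨a, by rw [spec_U a p (by omega)], by rw [hx]⟩

/-- the ratio in Newton's inequality is unbounded -/
lemma newton_viol (k j : ℕ) (hj : 2 ≤ j) (hjk : j + 1 ≤ k) (M : ℝ) (a : ℝ) (ha : 1 < a)
    (haM : M * ((k : ℝ) + 1) ^ 2 < a) :
    M * ((∑ f : Fin j ↪o Fin (k + 1), ((G k a (a ^ j)).submatrix f f).det) /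
        ((k + 1).choose j : ℝ)) ^ 2 <
      ((∑ f : Fin (j - 1) ↪o Fin (k + 1), ((G k a (a ^ j)).submatrix f f).det) /
        ((k + 1).choose (j - 1) : ℝ)) *
      ((∑ f : Fin (j + 1) ↪o Fin (k + 1), ((G k a (a ^ j)).submatrix f f).det) /
        ((k + 1).choose (j + 1) : ℝ)) := by
  have ha0 : 0 < a := by linarith
  have hc : (a ^ j) ≠ 0 := by positivity
  -- the normalised coefficients
  have key : ∀ i : ℕ, i ≤ k + 1 → 
      (∑ f : Fin i ↪o Fin (k + 1), ((G k a (a ^ j)).submatrix f f).det) / ((k + 1).choose i : ℝ)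
        = (((k : ℝ) + 1 - i) * a ^ i + i * a ^ j) / ((k : ℝ) + 1) := by
    intro i hi
    rw [sum_minors k i a (a ^ j) hc]
    have hch : (0 : ℝ) < ((k + 1).choose i : ℝ) := by
      exact_mod_cast Nat.choose_pos hi
    have h1 : ((k : ℝ) + 1 - i) * ((k + 1).choose i : ℝ) = ((k : ℝ) + 1) * (k.choose i : ℝ) := by
      have h2 := Nat.choose_mul_succ_eq k i
      have h3 : ((k.choose i * (k + 1) : ℕ) : ℝ) = (((k + 1).choose i * (k + 1 - i) : ℕ) : ℝ) := by
        rw [h2]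
      rw [Nat.cast_mul, Nat.cast_mul, Nat.cast_sub hi] at h3
      push_cast at h3
      linarith
    have hk1 : (0 : ℝ) < (k : ℝ) + 1 := by positivity
    rw [div_eq_div_iff hch.ne' hk1.ne']
    linear_combination (-(a ^ i) + a ^ j) * h1
  rw [key j (by omega), key (j - 1) (by omega), key (j + 1) (by omega)]
  have hk1 : (0 : ℝ) < (k : ℝ) + 1 := by positivity
  have hj1 : ((j - 1 : ℕ) : ℝ) = (j : ℝ) - 1 := by
    rw [Nat.cast_sub (by omega)]; simp
  have hj2 : ((j + 1 : ℕ) : ℝ) = (j : ℝ) + 1 := by push_cast; ring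
  rw [hj1, hj2]
  have hjr : (2 : ℝ) ≤ j := by exact_mod_cast hj
  have hjkr : (j : ℝ) + 1 ≤ k := by exact_mod_cast hjk
  have e1 : (((k : ℝ) + 1 - j) * a ^ j + j * a ^ j) / ((k : ℝ) + 1) = a ^ j := by
    field_simp
    ring
  rw [e1]
  have p1 : a ^ j ≤ ((k : ℝ) + 1 - ((j : ℝ) - 1)) * a ^ (j - 1) + ((j : ℝ) - 1) * a ^ j := by
    have q1 : 0 ≤ ((k : ℝ) + 1 - ((j : ℝ) - 1)) * a ^ (j - 1) :=
      mul_nonneg (by linarith) (by positivity)
    have q2 : 1 * a ^ j ≤ ((j : ℝ) - 1) * a ^ j :=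
      mul_le_mul_of_nonneg_right (by linarith) (by positivity)
    linarith
  have p2 : a ^ (j + 1) ≤ ((k : ℝ) + 1 - ((j : ℝ) + 1)) * a ^ (j + 1) + ((j : ℝ) + 1) * a ^ j := by
    have q1 : 0 ≤ ((j : ℝ) + 1) * a ^ j := by positivity
    have q2 : 1 * a ^ (j + 1) ≤ ((k : ℝ) + 1 - ((j : ℝ) + 1)) * a ^ (j + 1) :=
      mul_le_mul_of_nonneg_right (by linarith) (by positivity)
    linarith
  have p3 : a ^ j * a ^ (j + 1) ≤ (((k : ℝ) + 1 - ((j : ℝ) - 1)) * a ^ (j - 1) + ((j : ℝ) - 1) * a ^ j) *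
      (((k : ℝ) + 1 - ((j : ℝ) + 1)) * a ^ (j + 1) + ((j : ℝ) + 1) * a ^ j) :=
    mul_le_mul p1 p2 (by positivity) (le_trans (by positivity) p1)
  rw [div_mul_div_comm, lt_div_iff₀ (by positivity)]
  have p4 : M * (a ^ j) ^ 2 * (((k : ℝ) + 1) * ((k : ℝ) + 1)) < a ^ j * a ^ (j + 1) := by
    have : a ^ j * a ^ (j + 1) = a * (a ^ j) ^ 2 := by ring
    rw [this]
    have h5 : 0 < (a ^ j) ^ 2 := by positivity
    nlinarith [mul_lt_mul_of_pos_right haM h5]
  linarith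

end Pool.Agent.Y744.GK
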