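import Mathlib

/-! Determinants of matrices which are triangular for some ordering of the indices, and the family
of bordered triangular matrices. -/

set_option autoImplicit false

namespace Pool.Agent.Y744.GK
open Finset Matrix

/-- determinant of a matrix which is triangular with respect to an injective weight -/
lemma det_tri {m : ℕ} (M : Matrix (Fin m) (Fin m) ℝ) (b : Fin m → ℤ) (hb : Function.Injective b)
    (h : ∀ i j, b j < b i → M i j = 0) : M.det = ∏ i, M i i := by
  rw [Matrix.det_apply, Finset.sum_eq_single (1 : Equiv.Perm (Fin m))]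
  · simp
  · intro σ _ hσ
    have : ∃ i, b i < b (σ i) := by
      by_contra hcon
      push Not at hcon
      have h1 : ∑ i, b (σ i) = ∑ i, b i := Equiv.sum_comp σ b
      have h2 := (Finset.sum_eq_sum_iff_of_le (fun i _ => hcon i)).1 h1
      apply hσ
      ext i : 1
      exact hb (h2 i (mem_univ i))
    obtain ⟨i, hi⟩ := this
    have h3 : ∏ i, M (σ i) i = 0 := Finset.prod_eq_zero (mem_univ i) (h _ _ hi)
    rw [h3, smul_zero]
  · intro h4
    exact absurd (mem_univ _) h4

/-- a large block of zeros in the lower left corner -/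
lemma det_zero_low {m : ℕ} (M : Matrix (Fin m) (Fin m) ℝ) (t : Fin m)
    (h : ∀ i j, t ≤ i → j ≤ t → M i j = 0) : M.det = 0 := by
  rw [Matrix.det_apply]
  apply Finset.sum_eq_zero
  intro σ _
  have : ∃ i, i ≤ t ∧ t ≤ σ i := by
    by_contra hcon
    push Not at hcon
    have h1 : (Finset.Iic t).card ≤ (Finset.Iio t).card :=
      Finset.card_le_card_of_injOn σ (fun i hi => by simpa using hcon i (by simpa using hi))
        (σ.injective.injOn)
    rw [Fin.card_Iic, Fin.card_Iio] at h1
    omega
  obtain ⟨i, hi, hi2⟩ := this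
  have h3 : ∏ i, M (σ i) i = 0 := Finset.prod_eq_zero (mem_univ i) (h _ _ hi2 hi)
  rw [h3, smul_zero]

/-- a large block of zeros in the upper right corner -/
lemma det_zero_up {m : ℕ} (M : Matrix (Fin m) (Fin m) ℝ) (t : Fin m)
    (h : ∀ i j, i ≤ t → t ≤ j → M i j = 0) : M.det = 0 := by
  rw [← Matrix.det_transpose]
  exact det_zero_low _ t (fun i j hi hj => h j i hj hi)

/-- the triangular part -/
def U (m : ℕ) (a : ℝ) : Matrix (Fin m) (Fin m) ℝ := fun i j =>
  if i = j then a else if i < j then a - 1 else 0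

/-- the bordered matrix -/
def G (m : ℕ) (a c : ℝ) : Matrix (Fin (m + 1)) (Fin (m + 1)) ℝ := fun i j =>
  if i = Fin.last m then c else if i = j then a else if i < j then a - 1 else 0

lemma fin_inj (m : ℕ) : Function.Injective (fun i : Fin m => ((i : ℕ) : ℤ)) := by
  intro i j h
  have h' : ((i : ℕ) : ℤ) = ((j : ℕ) : ℤ) := h
  exact Fin.ext (by exact_mod_cast h')

lemma fin_inj' (m : ℕ) : Function.Injective (fun i : Fin m => -((i : ℕ) : ℤ)) := by
  intro i j h
  have h' : -((i : ℕ) : ℤ) = -((j : ℕ) : ℤ) := h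
  exact Fin.ext (by omega)

lemma det_upper {m : ℕ} (M : Matrix (Fin m) (Fin m) ℝ) (h : ∀ i j, j < i → M i j = 0) :
    M.det = ∏ i, M i i := by
  refine det_tri M _ (fin_inj m) (fun i j hij => h i j ?_)
  have : ((j : ℕ) : ℤ) < ((i : ℕ) : ℤ) := hij
  exact Fin.lt_def.2 (by exact_mod_cast this)

lemma det_lower {m : ℕ} (M : Matrix (Fin m) (Fin m) ℝ) (h : ∀ i j, i < j → M i j = 0) :
    M.det = ∏ i, M i i := by
  refine det_tri M _ (fin_inj' m) (fun i j hij => h i j ?_)
  have : -((j : ℕ) : ℤ) < -((i : ℕ) : ℤ) := hij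
  exact Fin.lt_def.2 (by omega)

lemma char_U (m : ℕ) (a x : ℝ) : (x • (1 : Matrix (Fin m) (Fin m) ℝ) - U m a).det = (x - a) ^ m := by
  rw [det_upper]
  · simp [U]
  · intro i j hij
    simp only [Matrix.sub_apply, Matrix.smul_apply, Matrix.one_apply, U, if_neg hij.ne',
      if_neg (not_lt.2 hij.le)]
    simp

lemma char_G (m : ℕ) (a c x : ℝ) (hc : c ≠ 0) :
    (x • (1 : Matrix (Fin (m + 1)) (Fin (m + 1)) ℝ) - G m a c).det
      = x * (x - a) ^ m - c * (x - 1) ^ m := by
  set W : Matrix (Fin (m + 1)) (Fin (m + 1)) ℝ := x • 1 - G m a c with hW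
  have h1 : W = W.updateRow (Fin.last m)
      ((fun j => if j = Fin.last m then x else 0) + fun _ => -c) := by
    ext i j
    by_cases hi : i = Fin.last m
    · subst hi
      simp only [Matrix.updateRow_self, hW, Matrix.sub_apply, Matrix.smul_apply, Matrix.one_apply,
        G, if_true, Pi.add_apply]
      by_cases hj : j = Fin.last m
      · subst hj
        simp
        ring
      · have hj' : Fin.last m ≠ j := fun e => hj e.symm
        simp [hj, hj']
    · rw [Matrix.updateRow_ne hi]
  rw [h1, Matrix.det_updateRow_add]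
  have hsub : ∀ s : Fin (m + 1), ∀ v : Fin (m + 1) → ℝ, s ≠ Fin.last m → ∀ j,
      (W.updateRow (Fin.last m) v) s j = (if s = j then x - a else if s < j then 1 - a else 0) := by
    intro s v hs j
    rw [Matrix.updateRow_ne hs]
    simp only [hW, Matrix.sub_apply, Matrix.smul_apply, Matrix.one_apply, G, if_neg hs]
    by_cases e : s = j
    · simp [e]
    · by_cases e2 : s < j
      · simp [e, e2]
      · simp [e, e2]
  have e1 : (W.updateRow (Fin.last m) (fun j => if j = Fin.last m then x else 0)).det
      = x * (x - a) ^ m := by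
    rw [det_upper]
    · rw [Fin.prod_univ_castSucc, mul_comm]
      congr 1
      · simp
      · rw [Finset.prod_congr rfl (g := fun _ => x - a)]
        · simp
        · intro s _
          rw [hsub _ _ (Fin.castSucc_lt_last s).ne, if_pos rfl]
    · intro i j hij
      by_cases hi : i = Fin.last m
      · subst hi
        rw [Matrix.updateRow_self, if_neg hij.ne]
      · rw [hsub i _ hi, if_neg hij.ne', if_neg (not_lt.2 hij.le)]
  have e2 : (W.updateRow (Fin.last m) (fun _ => -c)).det = - (c * (x - 1) ^ m) := by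
    set N : Matrix (Fin (m + 1)) (Fin (m + 1)) ℝ := fun i j =>
      if i = Fin.last m then -c else if i = j then x - 1 else if i < j then 0 else a - 1 with hN
    have h2 : (W.updateRow (Fin.last m) (fun _ => -c)).det = N.det := by
      refine Matrix.det_eq_of_forall_row_eq_smul_add_const
        (fun i => if i = Fin.last m then 0 else (a - 1) / c) (Fin.last m) (by simp) ?_
      intro i j
      by_cases hi : i = Fin.last m
      · subst hi
        simp [hN]
      · rw [hsub i _ hi]
        simp only [hN, if_neg hi, if_true]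
        have e3 : (a - 1) / c * -c = 1 - a := by field_simp; ring
        rw [e3]
        by_cases e : i = j
        · simp [e]
        · by_cases e2 : i < j
          · simp [e, e2]
          · simp [e, e2]
    rw [h2, det_lower]
    · rw [Fin.prod_univ_castSucc]
      rw [Finset.prod_congr rfl (g := fun _ => x - 1)]
      · simp [hN]
        ring
      · intro s _
        simp only [hN, if_neg (Fin.castSucc_lt_last s).ne, if_true]
    · intro i j hij
      have hi : i ≠ Fin.last m := (lt_of_lt_of_le hij (Fin.le_last _)).ne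
      simp only [hN, if_neg hi, if_neg hij.ne, if_pos hij]
  rw [e1, e2]
  ring

lemma det_U (m : ℕ) (a : ℝ) : (U m a).det = a ^ m := by
  rw [det_upper]
  · simp [U]
  · intro i j hij
    simp only [U, if_neg hij.ne', if_neg (not_lt.2 hij.le)]

lemma det_G (m : ℕ) (a c : ℝ) (hc : c ≠ 0) : (G m a c).det = c := by
  have h := char_G m a c 0 hc
  rw [zero_smul, zero_sub, Matrix.det_neg] at h
  simp only [Fintype.card_fin, zero_mul, zero_sub] at h
  have h2 : ((-1 : ℝ)) ^ (m + 1) * ((-1) ^ (m + 1)) = 1 := by
    rw [← mul_pow]; simp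
  calc (G m a c).det = ((-1 : ℝ)) ^ (m + 1) * ((-1) ^ (m + 1)) * (G m a c).det := by rw [h2, one_mul]
    _ = ((-1 : ℝ)) ^ (m + 1) * ((-1) ^ (m + 1) * (G m a c).det) := by ring
    _ = ((-1 : ℝ)) ^ (m + 1) * (-(c * (-1) ^ m)) := by rw [h]
    _ = c * (((-1 : ℝ)) ^ (m + 1) * ((-1) ^ (m + 1))) := by ring
    _ = c := by rw [h2, mul_one]

end Pool.Agent.Y744.GK
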