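import Pool.Agent.Y744.GK.Tri

/-! The bordered matrices are weakly sign symmetric P-matrices. -/

set_option autoImplicit false

namespace Pool.Agent.Y744.GK
open Finset Matrix

lemma det_mixed {m : ℕ} (N : Matrix (Fin (m + 1)) (Fin (m + 1)) ℝ) (p : Fin m → Prop)
    (hp : ∀ s t, t ≤ s → p s → p t) (h0 : ∀ s : Fin m, N s.castSucc (Fin.last m) = 0)
    (h1 : ∀ s t : Fin m, p s → s < t → N s.castSucc t.castSucc = 0)
    (h2 : ∀ s t : Fin m, ¬ p s → t < s → N s.castSucc t.castSucc = 0) :
    N.det = ∏ i, N i i := by
  classical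
  set b : Fin (m + 1) → ℤ := fun i => Fin.lastCases (motive := fun _ => ℤ) (-((m : ℤ) + 1))
    (fun s => if p s then -((s : ℕ) : ℤ) else ((s : ℕ) : ℤ)) i with hb
  have bl : b (Fin.last m) = -((m : ℤ) + 1) := by simp [hb]
  have bc : ∀ s : Fin m, b s.castSucc = if p s then -((s : ℕ) : ℤ) else ((s : ℕ) : ℤ) := by
    intro s
    simp only [hb, Fin.lastCases_castSucc]
  refine det_tri N b ?_ ?_
  · intro i j hij
    induction i using Fin.lastCases with
    | last =>
      induction j using Fin.lastCases with
      | last => rfl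
      | cast t =>
        exfalso
        rw [bl, bc] at hij
        have := t.isLt
        split_ifs at hij <;> omega
    | cast s =>
      induction j using Fin.lastCases with
      | last =>
        exfalso
        rw [bl, bc] at hij
        have := s.isLt
        split_ifs at hij <;> omega
      | cast t =>
        rw [bc, bc] at hij
        congr 1
        apply Fin.ext
        split_ifs at hij <;> omega
  · intro i j hij
    induction i using Fin.lastCases with
    | last =>
      exfalso
      induction j using Fin.lastCases with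
      | last => exact lt_irrefl _ hij
      | cast t =>
        rw [bl, bc] at hij
        have := t.isLt
        split_ifs at hij <;> omega
    | cast s =>
      induction j using Fin.lastCases with
      | last => exact h0 s
      | cast t =>
        rw [bc, bc] at hij
        by_cases ps : p s
        · by_cases pt : p t
          · rw [if_pos ps, if_pos pt] at hij
            exact h1 s t ps (Fin.lt_def.2 (by omega))
          · rw [if_pos ps, if_neg pt] at hij
            exfalso
            omega
        · by_cases pt : p t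
          · apply h2 s t ps
            by_contra hts
            exact ps (hp t s (not_lt.1 hts) pt)
          · rw [if_neg ps, if_neg pt] at hij
            exact h2 s t ps (Fin.lt_def.2 (by omega))

lemma last_eq {k m : ℕ} (f : Fin (m + 1) ↪o Fin (k + 1)) (h : Fin.last k ∈ Set.range f) :
    f (Fin.last m) = Fin.last k := by
  obtain ⟨i, hi⟩ := h
  have h1 : f i ≤ f (Fin.last m) := f.monotone (Fin.le_last _)
  rw [hi] at h1
  exact le_antisymm (Fin.le_last _) h1

lemma sub_G {k m : ℕ} (a c : ℝ) (f : Fin (m + 1) ↪o Fin (k + 1)) (h : Fin.last k ∈ Set.range f) :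
    (G k a c).submatrix f f = G m a c := by
  have hl := last_eq f h
  ext i j
  have e1 : (f i = Fin.last k) ↔ (i = Fin.last m) := by
    rw [← hl]; exact f.injective.eq_iff
  simp only [Matrix.submatrix_apply, G, e1, f.injective.eq_iff, OrderEmbedding.lt_iff_lt]

lemma sub_U {k m : ℕ} (a c : ℝ) (f : Fin m ↪o Fin (k + 1)) (h : Fin.last k ∉ Set.range f) :
    (G k a c).submatrix f f = U m a := by
  ext i j
  have e1 : f i ≠ Fin.last k := fun he => h ⟨i, he⟩
  simp only [Matrix.submatrix_apply, G, U, if_neg e1, f.injective.eq_iff, OrderEmbedding.lt_iff_lt]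

/-- All principal minors. -/
lemma minor_in {k m : ℕ} (a c : ℝ) (hc : c ≠ 0) (f : Fin m ↪o Fin (k + 1))
    (h : Fin.last k ∈ Set.range f) : ((G k a c).submatrix f f).det = c := by
  obtain ⟨i, hi⟩ := h
  obtain ⟨m', rfl⟩ : ∃ m', m = m' + 1 := ⟨m - 1, by have := i.isLt; omega⟩
  rw [sub_G a c f ⟨i, hi⟩, det_G _ _ _ hc]

lemma minor_out {k m : ℕ} (a c : ℝ) (f : Fin m ↪o Fin (k + 1))
    (h : Fin.last k ∉ Set.range f) : ((G k a c).submatrix f f).det = a ^ m := by
  rw [sub_U a c f h, det_U]

lemma low_zero {k m : ℕ} (a c : ℝ) (f g : Fin m ↪o Fin (k + 1)) (h : Fin.last k ∉ Set.range f)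
    (t : Fin m) (ht : g t < f t) : ((G k a c).submatrix f g).det = 0 := by
  apply det_zero_low _ t
  intro i j hi hj
  have h1 : g j < f i := lt_of_le_of_lt (g.monotone hj) (lt_of_lt_of_le ht (f.monotone hi))
  have e1 : f i ≠ Fin.last k := fun he => h ⟨i, he⟩
  simp only [Matrix.submatrix_apply, G, if_neg e1, if_neg h1.ne', if_neg (not_lt.2 h1.le)]

/-- the lower triangular matrix obtained by subtracting multiples of the last row -/
def Lw (k : ℕ) (a c : ℝ) : Matrix (Fin (k + 1)) (Fin (k + 1)) ℝ := fun i j =>
  if i = Fin.last k then c else if i = j then 1 else if i < j then 0 else -(a - 1)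

lemma up_zero {k m : ℕ} (a c : ℝ) (hc : c ≠ 0) (f g : Fin (m + 1) ↪o Fin (k + 1))
    (hf : Fin.last k ∈ Set.range f)
    (t : Fin (m + 1)) (ht : f t < g t) : ((G k a c).submatrix f g).det = 0 := by
  have hl := last_eq f hf
  have h1 : ((G k a c).submatrix f g).det = ((Lw k a c).submatrix f g).det := by
    refine Matrix.det_eq_of_forall_row_eq_smul_add_const
      (fun i => if i = Fin.last m then 0 else (a - 1) / c) (Fin.last m) (by simp) ?_
    intro i j
    by_cases hi : i = Fin.last m
    · subst hi
      simp [Lw, G, hl]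
    · have e1 : f i ≠ Fin.last k := by
        rw [← hl]; exact fun e => hi (f.injective e)
      simp only [Matrix.submatrix_apply, G, Lw, hl, if_neg hi, if_neg e1, if_true]
      have e3 : (a - 1) / c * c = a - 1 := by field_simp
      rw [e3]
      by_cases e : f i = g j
      · simp [e]
      · by_cases e2 : f i < g j
        · simp [e, e2]
        · simp [e, e2]
  rw [h1]
  apply det_zero_up _ t
  intro i j hi hj
  have h1 : f i < g j := lt_of_le_of_lt (f.monotone hi) (lt_of_lt_of_le ht (g.monotone hj))
  have e1 : f i ≠ Fin.last k := (lt_of_lt_of_le h1 (Fin.le_last _)).ne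
  simp only [Matrix.submatrix_apply, Lw, if_neg e1, if_neg h1.ne, if_pos h1]

lemma mixed_one {k m : ℕ} (a c : ℝ) (ha : 1 < a) (hc : 0 < c) (f' : Fin m → Fin (k + 1))
    (hf' : StrictMono f') (hl : ∀ s, f' s ≠ Fin.last k) (j : Fin (k + 1))
    (hj2 : ∀ s, f' s ≠ j) :
    0 ≤ ((G k a c).submatrix (Fin.snoc (α := fun _ => Fin (k + 1)) f' (Fin.last k))
      (Fin.snoc (α := fun _ => Fin (k + 1)) f' j)).det := by
  set u : Fin m → ℝ := fun s => if f' s < j then a - 1 else 0 with hu
  set N : Matrix (Fin (m + 1)) (Fin (m + 1)) ℝ := fun i t =>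
    Fin.lastCases (motive := fun _ => ℝ) c (fun s =>
      G k a c (f' s) (Fin.snoc (α := fun _ => Fin (k + 1)) f' j t) - u s) i with hN
  have hNc : ∀ s t, N (Fin.castSucc s) t =
      G k a c (f' s) (Fin.snoc (α := fun _ => Fin (k + 1)) f' j t) - u s := by
    intro s t
    simp only [hN, Fin.lastCases_castSucc]
  have hNl : ∀ t, N (Fin.last m) t = c := by
    intro t
    simp only [hN, Fin.lastCases_last]
  have h1 : ((G k a c).submatrix (Fin.snoc (α := fun _ => Fin (k + 1)) f' (Fin.last k))
      (Fin.snoc (α := fun _ => Fin (k + 1)) f' j)).det = N.det := by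
    refine Matrix.det_eq_of_forall_row_eq_smul_add_const
      (fun i => Fin.lastCases (motive := fun _ => ℝ) 0 (fun s => u s / c) i) (Fin.last m)
      (by simp) ?_
    intro i t
    rw [hNl]
    induction i using Fin.lastCases with
    | last => simp [G, hNl]
    | cast s =>
      rw [hNc]
      simp only [Matrix.submatrix_apply, Fin.snoc_castSucc, Fin.lastCases_castSucc]
      field_simp
      ring
  rw [h1, det_mixed N (fun s => f' s < j)]
  · rw [Fin.prod_univ_castSucc]
    apply mul_nonneg
    · apply Finset.prod_nonneg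
      intro s _
      rw [hNc, Fin.snoc_castSucc]
      simp only [G, if_neg (hl s), if_true, hu]
      split_ifs <;> linarith
    · rw [hNl]
      exact hc.le
  · intro s t hts hs
    exact lt_of_le_of_lt (hf'.monotone hts) hs
  · intro s
    rw [hNc, Fin.snoc_last]
    simp only [G, if_neg (hl s), if_neg (hj2 s), hu]
    exact sub_self _
  · intro s t hs hst
    rw [hNc, Fin.snoc_castSucc]
    have h3 : f' s < f' t := hf' hst
    simp only [G, if_neg (hl s), if_neg h3.ne, if_pos h3, hu]
    rw [if_pos hs]
    ring
  · intro s t hs hst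
    rw [hNc, Fin.snoc_castSucc]
    have h3 : f' t < f' s := hf' hst
    simp only [G, if_neg (hl s), if_neg h3.ne', if_neg (not_lt.2 h3.le), hu]
    rw [if_neg hs]
    ring

lemma mixed_two {k m : ℕ} (a c : ℝ) (ha : 1 < a) (f' : Fin m → Fin (k + 1))
    (hf' : StrictMono f') (hl : ∀ s, f' s ≠ Fin.last k) (j : Fin (k + 1)) (hj : j ≠ Fin.last k)
    (hj2 : ∀ s, f' s ≠ j) :
    0 ≤ ((G k a c).submatrix (Fin.snoc (α := fun _ => Fin (k + 1)) f' j)
      (Fin.snoc (α := fun _ => Fin (k + 1)) f' (Fin.last k))).det := by
  rw [← Matrix.det_transpose]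
  have hb : (0 : ℝ) < a - 1 := by linarith
  set u : Fin m → ℝ := fun s => if f' s < j then 0 else a - 1 with hu
  set N : Matrix (Fin (m + 1)) (Fin (m + 1)) ℝ := fun i t =>
    Fin.lastCases (motive := fun _ => ℝ) (a - 1) (fun s =>
      G k a c (Fin.snoc (α := fun _ => Fin (k + 1)) f' j t) (f' s) - u s) i with hN
  have hNc : ∀ s t, N (Fin.castSucc s) t =
      G k a c (Fin.snoc (α := fun _ => Fin (k + 1)) f' j t) (f' s) - u s := by
    intro s t
    simp only [hN, Fin.lastCases_castSucc]
  have hNl : ∀ t, N (Fin.last m) t = a - 1 := by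
    intro t
    simp only [hN, Fin.lastCases_last]
  have hsn : ∀ t, Fin.snoc (α := fun _ => Fin (k + 1)) f' j t ≠ Fin.last k := by
    intro t
    induction t using Fin.lastCases with
    | last => rw [Fin.snoc_last]; exact hj
    | cast s => rw [Fin.snoc_castSucc]; exact hl s
  have h1 : ((G k a c).submatrix (Fin.snoc (α := fun _ => Fin (k + 1)) f' j)
      (Fin.snoc (α := fun _ => Fin (k + 1)) f' (Fin.last k))).transpose.det = N.det := by
    refine Matrix.det_eq_of_forall_row_eq_smul_add_const
      (fun i => Fin.lastCases (motive := fun _ => ℝ) 0 (fun s => u s / (a - 1)) i) (Fin.last m)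
      (by simp) ?_
    intro i t
    rw [hNl]
    induction i using Fin.lastCases with
    | last =>
      rw [Matrix.transpose_apply, Matrix.submatrix_apply, Fin.snoc_last, hNl]
      have h5 := hsn t
      simp only [G, if_neg h5, if_pos (lt_of_le_of_ne (Fin.le_last _) h5), Fin.lastCases_last]
      ring
    | cast s =>
      rw [hNc]
      simp only [Matrix.transpose_apply, Matrix.submatrix_apply, Fin.snoc_castSucc,
        Fin.lastCases_castSucc]
      field_simp
      ring
  rw [h1, det_mixed N (fun s => f' s < j)]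
  · rw [Fin.prod_univ_castSucc]
    apply mul_nonneg
    · apply Finset.prod_nonneg
      intro s _
      rw [hNc, Fin.snoc_castSucc]
      simp only [G, if_neg (hl s), if_true, hu]
      split_ifs <;> linarith
    · rw [hNl]
      exact hb.le
  · intro s t hts hs
    exact lt_of_le_of_lt (hf'.monotone hts) hs
  · intro s
    rw [hNc, Fin.snoc_last]
    simp only [G, if_neg hj, if_neg (hj2 s).symm, hu]
    by_cases h : f' s < j
    · rw [if_pos h, if_neg (not_lt.2 h.le)]
      ring
    · rw [if_neg h, if_pos (lt_of_le_of_ne (not_lt.1 h) (hj2 s).symm)]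
      ring
  · intro s t hs hst
    rw [hNc, Fin.snoc_castSucc]
    have h3 : f' s < f' t := hf' hst
    simp only [G, if_neg (hl t), if_neg h3.ne', if_neg (not_lt.2 h3.le), hu]
    rw [if_pos hs]
    ring
  · intro s t hs hst
    rw [hNc, Fin.snoc_castSucc]
    have h3 : f' t < f' s := hf' hst
    simp only [G, if_neg (hl t), if_neg h3.ne, if_pos h3, hu]
    rw [if_neg hs]
    ring

end Pool.Agent.Y744.GK
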